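import Pool.Agent.R385.MW.Sharp

/-!
# MP_148101: the modulus of an L-function on the edge is a Muckenhoupt weight, uniformly in the motive

`L = LFun (cut B P)` is an Euler product over the primes `p ≥ P`, pure of weight `w` and degree `N`
(the L-function of any Chow motive over `ℚ` with finitely many Euler factors removed), and
`Λ = modulus w (cut B P)` is its modulus on the line `Re s = w/2 + 1`, the limit of the finite products,
which exists and is positive almost everywhere.  The constant `K` is absolute.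

For every interval `I = [t - h, t + h]` and every real `δ` with `|δ| N < 1`, the mean of `Λ ^ δ` over `I`
agrees with `|L(w/2 + 1 + i t + h)| ^ δ` up to the factor `K / (1 - |δ| N)` on both sides; in particular
the product of the means of `Λ ^ δ` and `Λ ^ (-δ)` is at most `(K / (1 - |δ| N)) ^ 2`.  The mean
oscillation of `log Λ` is at most `K N`.  For the `N`-th power of the zeta function the mean of
`Λ ^ (1 / N)` is infinite, so the range of `δ` is the best possible.
-/

set_option autoImplicit false

namespace Pool.Agent.Results.MP_148101_nt.EdgeWeights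

open MeasureTheory Filter Topology Polynomial Pool.Agent.R385.MC Pool.Agent.R385.DT
  Pool.Agent.R385.MW

theorem result : (∃ K : ℝ, 0 < K ∧ ∀ (w : ℤ) (N : ℕ) (B : ℕ → ℂ[X]) (P : ℕ), PureFrom w N B P →
      (∀ᵐ τ : ℝ, 0 < modulus w (cut B P) τ ∧
        Tendsto (fun x : ℕ => ∏ p ∈ Nat.primesBelow x,
          ‖Pool.Agent.R385.MC.factor (cut B P) p (edge w τ)‖) atTop
          (𝓝 (modulus w (cut B P) τ))) ∧
      ∀ t h : ℝ, 0 < h →
        (∀ δ : ℝ, |δ| * N < 1 →
          IntervalIntegrable (fun τ => modulus w (cut B P) τ ^ δ) volume (t - h) (t + h) ∧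
          (1 - |δ| * N) / K * ‖LFun (cut B P) (edge w t + h)‖ ^ δ ≤
            1 / (2 * h) * ∫ τ in (t - h)..(t + h), modulus w (cut B P) τ ^ δ ∧
          1 / (2 * h) * ∫ τ in (t - h)..(t + h), modulus w (cut B P) τ ^ δ ≤
            K / (1 - |δ| * N) * ‖LFun (cut B P) (edge w t + h)‖ ^ δ) ∧
        IntervalIntegrable (fun τ => |Real.log (modulus w (cut B P) τ) -
          Real.log ‖LFun (cut B P) (edge w t + h)‖|) volume (t - h) (t + h) ∧
        1 / (2 * h) * ∫ τ in (t - h)..(t + h), |Real.log (modulus w (cut B P) τ) -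
          Real.log ‖LFun (cut B P) (edge w t + h)‖| ≤ K * N) ∧
    ∀ N : ℕ, 1 ≤ N → PureFrom 0 N (fun _ => (1 - X) ^ N) 0 ∧ ∀ h : ℝ, 0 < h →
      ¬ IntervalIntegrable (fun τ => modulus 0 (cut (fun _ => (1 - X) ^ N) 0) τ ^ (1 / (N : ℝ)))
        volume (-h) h := by
  refine ⟨?_, fun N hN => ⟨BN_pure N, fun h hh => sharp hN hh⟩⟩
  obtain ⟨K, hK, hmain⟩ := two_sided
  exact ⟨K, hK, fun w N B P hB => ⟨modulus_lim (cut_good hB) (cut_ne hB),
    fun t h hh => hmain w N B P hB t h hh⟩⟩

end Pool.Agent.Results.MP_148101_nt.EdgeWeights
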