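import Pool.Agent.R385.TA.Main

/-!
# Mertens' theorem and the radial behaviour at a point of the edge line

`M` is an arbitrary Chow motive over `ℚ`, `w` an integer and `L(s) = L^w(M, s)`.  The theorem is about one
point `s₀ = w/2 + 1 + iτ₀` of the edge line `Re s = w/2 + 1` of the half plane of absolute convergence.  If
`L(s)` has a meromorphic continuation near `s₀` with order `m` at `s₀`, then `ε^{-m} L(s₀ + ε)` tends to a
nonzero number for `ε → 0+`; and this radial property, which does not mention continuation, is shown to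
be the same as an asymptotic formula of Mertens for the finite Euler products at `s₀`.
The definitions are in `Pool.Agent.R385.MC.Defs`.
-/

set_option autoImplicit false

namespace Pool.Agent.Results.MP_148101_nt.MertensEdge

open Filter Topology Polynomial Pool.Agent.R385.MC

/-- **Mertens' theorem on the edge line.**  Let `B` be the denominators of the Euler factors of an
`L`-function `L(s)` of weight `w` and degree `N`, for example of `L^w(M, s)` for a Chow motive `M` over
`ℚ`, let `s₀ = w/2 + 1 + iτ₀` be a point of the edge line which is not a pole of one of the Euler factors,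
and let `m` and `ℓ ≠ 0` be complex numbers.  Then `ε^{-m} L(s₀ + ε)` tends to `ℓ` for `ε → 0+` if and only
if `(log x)^m ∏_{p < x} L_p(s₀)` tends to `e^{-γm} ℓ` for `x → ∞`. -/
theorem result (w : ℤ) (N : ℕ) (B : ℕ → ℂ[X]) (hB : IsEuler w N B) (τ₀ : ℝ)
    (hpole : ∀ p : ℕ, p.Prime → (B p).eval ((p : ℂ) ^ (-edge w τ₀)) ≠ 0) (m ℓ : ℂ) (hℓ : ℓ ≠ 0) :
    Tendsto (fun ε : ℝ => Complex.exp (-(m * Real.log ε)) * LFun B (edge w τ₀ + ε)) (𝓝[>] 0)
      (𝓝 ℓ) ↔
    Tendsto (fun x : ℕ => Complex.exp (m * Real.log (Real.log x)) *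
      ∏ p ∈ Nat.primesBelow x, Pool.Agent.R385.MC.factor B p (edge w τ₀)) atTop
      (𝓝 (Complex.exp (-(m * Real.eulerMascheroniConstant)) * ℓ)) :=
  Pool.Agent.R385.TA.mertens_edge hB τ₀ hpole m ℓ hℓ

end Pool.Agent.Results.MP_148101_nt.MertensEdge
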