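import Pool.Agent.R385.MC.Main

/-!
# Meromorphic continuation and the modulus of the Euler product on the edge line

`M` is an arbitrary Chow motive over `ℚ` and `w` an integer.  The Euler product of `L(s) = L^w(M, s)`
converges absolutely for `Re s > w/2 + 1`.  On the edge line `Re s = w/2 + 1` the product of the absolute
values of the Euler factors converges almost everywhere; let `Λ(τ)` be its value at `w/2 + 1 + iτ`.
The theorem says that `L(s)` has a meromorphic continuation to the complex plane if and only if the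
real function `Λ(τ)²` has one, that the same holds for holomorphic continuation and for smaller
domains, and that the order of `L(s)` at a point of the edge line is half of the order of `Λ²`.
The definitions are in `Pool.Agent.R385.MC.Defs`.
-/

set_option autoImplicit false

namespace Pool.Agent.Results.MP_148101_nt.ModulusCriterion

open Filter Topology MeasureTheory Polynomial Pool.Agent.R385.MC

/-- **The modulus on the edge line decides the continuation.**  Let `B` be the denominators of the Euler
factors of an `L`-function `L(s)` of weight `w` and degree `N`, for example of `L^w(M, s)` for a Chow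
motive `M` over `ℚ`.

* For almost all real `τ` the product of the absolute values of the Euler factors at `w/2 + 1 + iτ`
  converges to a positive number, `Λ(τ) = modulus w B τ`.
* Let `U` be an open set which is symmetric with respect to the line `Re s = w/2 + 1`, for example
  `U = ℂ`.  There is a meromorphic function on `U` which is `L(s)` for `Re s > w/2 + 1` if and only if
  there is a meromorphic function `K` on `U` with `K(w/2 + 1 + iτ) = Λ(τ)²` for almost all `τ`.
* If no Euler factor has a pole with `Re s > w/2 + 1`, then the same holds with holomorphic functions on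
  `U` in place of meromorphic functions.
* `L(s)` continues meromorphically to a neighbourhood of `w/2 + 1 + iτ₀` with order `m` at this point
  (a pole of order `-m` if `m < 0`) if and only if there is a meromorphic function `K` at this point,
  of order `2m`, with `K(w/2 + 1 + iτ) = Λ(τ)²` for almost all `τ` near `τ₀`. -/
theorem result (w : ℤ) (N : ℕ) (B : ℕ → ℂ[X]) (hB : IsEuler w N B) :
    (∀ᵐ τ : ℝ, 0 < modulus w B τ ∧
      Tendsto (fun x : ℕ => ∏ p ∈ Nat.primesBelow x, ‖factor B p (edge w τ)‖) atTop
        (𝓝 (modulus w B τ))) ∧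
    (∀ U : Set ℂ, IsSymm w U →
      ((∃ F : ℂ → ℂ, MeromorphicOn F U ∧
        ∀ s ∈ U, (w : ℝ) / 2 + 1 < s.re → F s = LFun B s) ↔
      (∃ K : ℂ → ℂ, MeromorphicOn K U ∧
        ∀ᵐ τ : ℝ, edge w τ ∈ U → K (edge w τ) = (modulus w B τ : ℂ) ^ 2))) ∧
    ((∀ p : ℕ, p.Prime → ∀ s : ℂ, (w : ℝ) / 2 + 1 < s.re →
        (B p).eval ((p : ℂ) ^ (-s)) ≠ 0) →
      ∀ U : Set ℂ, IsSymm w U →
      ((∃ F : ℂ → ℂ, DifferentiableOn ℂ F U ∧
        ∀ s ∈ U, (w : ℝ) / 2 + 1 < s.re → F s = LFun B s) ↔
      (∃ K : ℂ → ℂ, DifferentiableOn ℂ K U ∧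
        ∀ᵐ τ : ℝ, edge w τ ∈ U → K (edge w τ) = (modulus w B τ : ℂ) ^ 2))) ∧
    (∀ (τ₀ : ℝ) (m : ℤ),
      (∃ F : ℂ → ℂ, MeromorphicAt F (edge w τ₀) ∧ meromorphicOrderAt F (edge w τ₀) = m ∧
        ∀ᶠ s in 𝓝 (edge w τ₀), (w : ℝ) / 2 + 1 < s.re → F s = LFun B s) ↔
      (∃ K : ℂ → ℂ, MeromorphicAt K (edge w τ₀) ∧
        meromorphicOrderAt K (edge w τ₀) = (2 * m : ℤ) ∧
        ∃ δ : ℝ, 0 < δ ∧
          ∀ᵐ τ : ℝ, |τ - τ₀| < δ → K (edge w τ) = (modulus w B τ : ℂ) ^ 2)) :=
  ⟨main_ae hB, fun _ hU => main_mer hB hU, fun hp _ hU => main_hol hB hp hU,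
    fun τ₀ m => main_loc hB τ₀ m⟩

end Pool.Agent.Results.MP_148101_nt.ModulusCriterion
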