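import Pool.Agent.R385.DT.Fin

/-!
# A density theorem for the twists of a motive by Dirichlet characters

`M` is an arbitrary Chow motive over `ℚ`, `w` an integer and `L(s) = L^w(M, s)`; nothing is assumed about
the continuation of `L(s)`.  The theorem is about the twists `L(M ⊗ χ, s)` by the primitive Dirichlet
characters `χ` of conductor at most `Q` (for quadratic `χ` these are again L-functions of Chow motives
over `ℚ`) near the edge line `Re s = w/2 + 1` of the half plane of absolute convergence, where each of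
them could have zeros and poles.  The finitely many Euler factors at the primes below `P` are left out,
where `P` is such that `M` has good reduction at all primes `p ≥ P`.
The definitions are in `Pool.Agent.R385.DT.Defs` and `Pool.Agent.R385.MC.Defs`.
-/

set_option autoImplicit false

namespace Pool.Agent.Results.MP_148101_nt.TwistDensity

open Polynomial Pool.Agent.R385.MC Pool.Agent.R385.DT

/-- **Density of the twists with zeros or poles near the edge line.**  Let `N` be a natural number and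
`η, κ > 0`.  There is a number `Q₀`, which depends only on `N`, `η` and `κ`, such that the following holds
for all `Q ≥ Q₀` and all Euler products `L(s)` over the primes `p ≥ P`, pure of weight `w` and of degree
`N`.  The characters `χ` are the primitive Dirichlet characters of conductor at most `Q`, and
`s_τ = w/2 + 1 + iτ`.

1. *One scale.*  If `0 < ε₁ ≤ ε₂ ≤ e ε₁` and `ε₂ ≤ (log Q)^{-19}`, then for all but at most `64 N² / η²` of
   the characters `χ` we have `|log |L(χ, s_τ + ε₁)| - log |L(χ, s_τ + ε₂)|| ≤ η` for all `|τ| ≤ Q`.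
2. *All scales.*  For all but at most `Q^κ` of the characters `χ` and all `|τ| ≤ Q`,
   `(log Q)^{-20N} ≤ |L(χ, s_τ + ε)| ≤ (log Q)^{20N}` if `exp(-Q^{κ/4}) ≤ ε ≤ 1`, and
   `log |L(χ, s_τ + ε)|` is constant up to `η` for `exp(-Q^{κ/4}) ≤ ε ≤ (log Q)^{-19}`. -/
theorem result (N : ℕ) (η κ : ℝ) (hη : 0 < η) (hκ : 0 < κ) :
    ∃ Q₀ : ℕ, ∀ Q : ℕ, Q₀ ≤ Q → ∀ (w : ℤ) (B : ℕ → ℂ[X]) (P : ℕ), PureFrom w N B P →
    (∀ ε₁ ε₂ : ℝ, 0 < ε₁ → ε₁ ≤ ε₂ → ε₂ ≤ Real.exp 1 * ε₁ → ε₂ ≤ (Real.log Q ^ 19)⁻¹ →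
      ∃ E : Finset (Σ q : ℕ, DirichletCharacter ℂ q), (E.card : ℝ) ≤ 64 * (N : ℝ) ^ 2 / η ^ 2 ∧
      ∀ (q : ℕ) (χ : DirichletCharacter ℂ q), 1 ≤ q → q ≤ Q → χ.IsPrimitive → ⟨q, χ⟩ ∉ E →
      ∀ τ : ℝ, |τ| ≤ Q →
        |Real.log ‖LFun (twist B P χ) (edge w τ + ε₁)‖ -
          Real.log ‖LFun (twist B P χ) (edge w τ + ε₂)‖| ≤ η) ∧
    (∃ E : Finset (Σ q : ℕ, DirichletCharacter ℂ q), (E.card : ℝ) ≤ (Q : ℝ) ^ κ ∧
      ∀ (q : ℕ) (χ : DirichletCharacter ℂ q), 1 ≤ q → q ≤ Q → χ.IsPrimitive → ⟨q, χ⟩ ∉ E →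
      ∀ τ : ℝ, |τ| ≤ Q →
        (∀ ε : ℝ, Real.exp (-(Q : ℝ) ^ (κ / 4)) ≤ ε → ε ≤ 1 →
          |Real.log ‖LFun (twist B P χ) (edge w τ + ε)‖| ≤ 20 * N * Real.log (Real.log Q)) ∧
        (∀ ε₁ ε₂ : ℝ, Real.exp (-(Q : ℝ) ^ (κ / 4)) ≤ ε₁ → ε₁ ≤ (Real.log Q ^ 19)⁻¹ →
          Real.exp (-(Q : ℝ) ^ (κ / 4)) ≤ ε₂ → ε₂ ≤ (Real.log Q ^ 19)⁻¹ →
          |Real.log ‖LFun (twist B P χ) (edge w τ + ε₁)‖ -
            Real.log ‖LFun (twist B P χ) (edge w τ + ε₂)‖| ≤ η)) := by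
  obtain ⟨Q₁, h₁⟩ := one_scale N hη
  obtain ⟨Q₂, h₂⟩ := all_scales N hη hκ
  refine ⟨max Q₁ Q₂, fun Q hQ w B P hB => ⟨?_, ?_⟩⟩
  · intro ε₁ ε₂ h1 h12 h2e h2
    obtain ⟨E, hE, hall⟩ := h₁ Q ((le_max_left _ _).trans hQ) w B P hB ε₁ ε₂ h1 h12 h2e h2
    exact ⟨E, hE, fun q χ hq1 hq2 hp hx τ hτ => hall ⟨q, χ⟩ ⟨hq1, hq2, hp⟩ hx τ hτ⟩
  · obtain ⟨E, hE, hall⟩ := h₂ Q ((le_max_right _ _).trans hQ) w B P hB
    exact ⟨E, hE, fun q χ hq1 hq2 hp hx τ hτ => hall ⟨q, χ⟩ ⟨hq1, hq2, hp⟩ hx τ hτ⟩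

end Pool.Agent.Results.MP_148101_nt.TwistDensity
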